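import Mathlib

/-!
# Single-orbit versus general local characterizations

There are affine-invariant properties `P ⊆ {F_{2^t} → F_2}` with an 8-local characterization such
that the least locality of a single-orbit characterization of `P` is arbitrarily large.

Let `t = ∏ i, s i * u i` with distinct primes `s i`, `u i`, and let `x i`, `y i` be elements of
`F_{2^t}` of degree `s i`, `u i`. The property consists of the functions `f` of degree at most two
(vanishing third differences) such that for all `i` and `a`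
`f(axy) + f(a) + f(axy + a) + f(ax) + f(ay) + f(ax + ay) = 0`, where `x = x i`, `y = y i`.
It contains `Tr(β z^(1+2^j))` for all `β` iff for every `i`, `s i ∣ j` or `u i ∣ j`.
A single-orbit characterization on `k` points gives, for every `i`, a vector of scalars for the
rows of an `m × m` diagonal matrix with nonzero diagonal which is a product of an `m × k` and a
`k × m` matrix. Hence `m ≤ k`.
-/

set_option autoImplicit false
set_option linter.unusedSectionVars false

namespace Pool.Agent.Results.MP_cb1103_lc.SingleOrbitUnbounded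

open Finset

/-! ### Definitions -/

/-- A `k`-local constraint on functions `K → F`: `k` points of `K` and a proper subset of `F^k`. -/
structure LocalConstraint (F K : Type) (k : ℕ) where
  /-- the points -/
  pts : Fin k → K
  /-- the allowed value vectors -/
  allowed : Set (Fin k → F)
  proper : allowed ≠ Set.univ

/-- `f` satisfies the constraint `C`. -/
def LocalConstraint.Sat {F K : Type} {k : ℕ} (C : LocalConstraint F K k) (f : K → F) : Prop :=
  (fun i => f (C.pts i)) ∈ C.allowed

/-- The constraint `C ∘ π` for the affine map `π(x) = a x + b`. -/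
def LocalConstraint.comp {F K : Type} [Field K] {k : ℕ} (C : LocalConstraint F K k) (a b : K) :
    LocalConstraint F K k where
  pts i := a * C.pts i + b
  allowed := C.allowed
  proper := C.proper

/-- The linear property `P` of functions `K → F` is affine-invariant. -/
def AffineInvariant {F K : Type} [Field F] [Field K] (P : Submodule F (K → F)) : Prop :=
  ∀ f ∈ P, ∀ a b : K, a ≠ 0 → (fun x => f (a * x + b)) ∈ P

/-- `P` has a `k`-local characterization. -/
def HasLocalChar {F K : Type} [Field F] [Field K] (P : Submodule F (K → F)) (k : ℕ) : Prop :=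
  ∃ S : Set (LocalConstraint F K k), ∀ f : K → F, f ∈ P ↔ ∀ C ∈ S, C.Sat f

/-- `P` has a `k`-single orbit characterization. -/
def HasSingleOrbitChar {F K : Type} [Field F] [Field K] (P : Submodule F (K → F)) (k : ℕ) :
    Prop :=
  ∃ C : LocalConstraint F K k, ∀ f : K → F, f ∈ P ↔ ∀ a b : K, a ≠ 0 → (C.comp a b).Sat f

/-! ### The property -/

section prop

variable {K : Type} [Field K] [Algebra (ZMod 2) K]

/-- second difference -/
def dd (f : K → ZMod 2) (x u v : K) : ZMod 2 := f x + f (x + u) + f (x + v) + f (x + u + v)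

/-- The property defined by the elements `x i`, `y i`. -/
def propP {m : ℕ} (x y : Fin m → K) : Submodule (ZMod 2) (K → ZMod 2) where
  carrier := {f | (∀ z u v w : K, dd f z u v + dd f (z + w) u v = 0) ∧
    ∀ (i : Fin m) (a : K), dd f 0 (a * x i * y i) a + dd f 0 (a * x i) (a * y i) = 0}
  add_mem' := by
    rintro f g ⟨hf1, hf2⟩ ⟨hg1, hg2⟩
    refine ⟨fun z u v w => ?_, fun i a => ?_⟩
    · have h1 := hf1 z u v w
      have h2 := hg1 z u v w
      simp only [dd, Pi.add_apply] at h1 h2 ⊢
      linear_combination h1 + h2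
    · have h1 := hf2 i a
      have h2 := hg2 i a
      simp only [dd, Pi.add_apply] at h1 h2 ⊢
      linear_combination h1 + h2
  zero_mem' := by
    refine ⟨fun z u v w => ?_, fun i a => ?_⟩ <;> simp [dd]
  smul_mem' := by
    rintro c f ⟨hf1, hf2⟩
    refine ⟨fun z u v w => ?_, fun i a => ?_⟩
    · have h1 := hf1 z u v w
      simp only [dd, Pi.smul_apply, smul_eq_mul] at h1 ⊢
      linear_combination c * h1
    · have h1 := hf2 i a
      simp only [dd, Pi.smul_apply, smul_eq_mul] at h1 ⊢
      linear_combination c * h1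

theorem zmod2_two (a : ZMod 2) : a + a = 0 := by
  revert a; decide

theorem zmod2_eq {a b : ZMod 2} (h : a + b = 0) : a = b := by
  revert a b; decide

theorem propP_affine {m : ℕ} (x y : Fin m → K) : AffineInvariant (propP x y) := by
  rintro f ⟨h1, h2⟩ c b _
  have key : ∀ z u v : K, dd (fun x => f (c * x + b)) z u v = dd f (c * z + b) (c * u) (c * v) := by
    intro z u v
    simp only [dd]
    ring_nf
  refine ⟨fun z u v w => ?_, fun i a => ?_⟩
  · rw [key, key]
    have := h1 (c * z + b) (c * u) (c * v) (c * w)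
    have e : c * (z + w) + b = c * z + b + c * w := by ring
    rw [e]; exact this
  · rw [key, key]
    have e0 : ∀ u v, dd f (c * 0 + b) u v = dd f 0 u v := by
      intro u v
      have := zmod2_eq (h1 0 u v b)
      rw [this]; simp
    rw [e0, e0]
    have := h2 i (c * a)
    have e1 : c * (a * x i * y i) = c * a * x i * y i := by ring
    have e2 : c * (a * x i) = c * a * x i := by ring
    have e3 : c * (a * y i) = c * a * y i := by ring
    rw [e1, e2, e3]; exact this

/-- The even-weight vectors. -/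
def sumZero : Set (Fin 8 → ZMod 2) := {v | ∑ i, v i = 0}

theorem sumZero_ne : sumZero ≠ Set.univ := by
  intro h
  have : (Pi.single 0 1 : Fin 8 → ZMod 2) ∈ sumZero := by rw [h]; trivial
  simp [sumZero] at this

theorem propP_local {m : ℕ} (x y : Fin m → K) : HasLocalChar (propP x y) 8 := by
  refine ⟨{C | C.allowed = sumZero ∧
    ((∃ z u v w : K, C.pts = ![z, z + u, z + v, z + u + v, z + w, z + w + u, z + w + v,
        z + w + u + v]) ∨
      ∃ (i : Fin m) (a : K), C.pts = ![0, 0 + a * x i * y i, 0 + a, 0 + a * x i * y i + a,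
        0, 0 + a * x i, 0 + a * y i, 0 + a * x i + a * y i])}, fun f => ⟨?_, ?_⟩⟩
  · rintro ⟨h1, h2⟩ C ⟨hC, (⟨z, u, v, w, hp⟩ | ⟨i, a, hp⟩)⟩
    · have := h1 z u v w
      simp only [LocalConstraint.Sat, hC, sumZero, hp, Set.mem_ofPred_eq, Fin.sum_univ_eight]
      simp only [dd] at this
      simp
      linear_combination this
    · have := h2 i a
      simp only [LocalConstraint.Sat, hC, sumZero, hp, Set.mem_ofPred_eq, Fin.sum_univ_eight]
      simp only [dd] at this
      simp
      simp at this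
      linear_combination this
  · intro h
    refine ⟨fun z u v w => ?_, fun i a => ?_⟩
    · have := h ⟨![z, z + u, z + v, z + u + v, z + w, z + w + u, z + w + v,
        z + w + u + v], sumZero, sumZero_ne⟩ ⟨rfl, Or.inl ⟨z, u, v, w, rfl⟩⟩
      simp only [LocalConstraint.Sat, sumZero, Set.mem_ofPred_eq, Fin.sum_univ_eight] at this
      simp at this
      simp only [dd]
      linear_combination this
    · have := h ⟨![0, 0 + a * x i * y i, 0 + a, 0 + a * x i * y i + a,
        0, 0 + a * x i, 0 + a * y i, 0 + a * x i + a * y i], sumZero, sumZero_ne⟩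
        ⟨rfl, Or.inr ⟨i, a, rfl⟩⟩
      simp only [LocalConstraint.Sat, sumZero, Set.mem_ofPred_eq, Fin.sum_univ_eight] at this
      simp at this
      simp only [dd]
      simp
      linear_combination this

/-- additive functions and constants belong to the property -/
theorem additive_mem {m : ℕ} (x y : Fin m → K) (f : K → ZMod 2)
    (hf : ∀ u v, f (u + v) = f u + f v) : f ∈ propP x y := by
  have h2 := zmod2_two
  refine ⟨fun z u v w => ?_, fun i a => ?_⟩
  · simp only [dd, hf]
    linear_combination 4 * h2 (f z) + 2 * h2 (f u) + 2 * h2 (f v) + 2 * h2 (f w)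
  · have h0 : f 0 = 0 := by
      have := hf 0 0
      rw [add_zero] at this
      linear_combination -this
    simp only [dd, hf, h0]
    linear_combination h2 (f (a * x i * y i)) + h2 (f a) + h2 (f (a * x i)) + h2 (f (a * y i))

theorem const_mem {m : ℕ} (x y : Fin m → K) (c : ZMod 2) : (fun _ => c) ∈ propP x y := by
  refine ⟨fun z u v w => ?_, fun i a => ?_⟩ <;>
  · simp only [dd]
    linear_combination 4 * zmod2_two c

variable [CharP K 2]

theorem two_eq : (2 : K) = 0 := by
  have := CharP.cast_eq_zero K 2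
  simpa using this

theorem add_pow_two_pow (u v : K) (j : ℕ) : (u + v) ^ 2 ^ j = u ^ 2 ^ j + v ^ 2 ^ j :=
  add_pow_char_pow u v 2 j

/-- The second differences of `Tr(β z^(1+2^j))`. -/
theorem dd_quad (T : K →ₗ[ZMod 2] ZMod 2) (β : K) (j : ℕ) (z u v : K) :
    dd (fun x => T (β * x ^ (1 + 2 ^ j))) z u v = T (β * (u * v ^ 2 ^ j + u ^ 2 ^ j * v)) := by
  simp only [dd, ← map_add]
  congr 1
  simp only [pow_add, pow_one, add_pow_two_pow]
  linear_combination (2 * β * z * z ^ 2 ^ j + β * z * u ^ 2 ^ j + β * u * z ^ 2 ^ j +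
    β * u * u ^ 2 ^ j + β * z * v ^ 2 ^ j + β * v * z ^ 2 ^ j + β * v * v ^ 2 ^ j) *
    (two_eq (K := K))

theorem dd_quad' (T : K →ₗ[ZMod 2] ZMod 2) (β : K) (j : ℕ) (a x y : K) :
    dd (fun x => T (β * x ^ (1 + 2 ^ j))) 0 (a * x * y) a +
      dd (fun x => T (β * x ^ (1 + 2 ^ j))) 0 (a * x) (a * y) =
      T (β * (a * a ^ 2 ^ j) * ((x + x ^ 2 ^ j) * (y + y ^ 2 ^ j))) := by
  rw [dd_quad, dd_quad, ← map_add]
  congr 1
  simp only [mul_pow]
  ring

theorem quad_mem {m : ℕ} (x y : Fin m → K) (T : K →ₗ[ZMod 2] ZMod 2) (β : K) (j : ℕ)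
    (hj : ∀ i, x i ^ 2 ^ j = x i ∨ y i ^ 2 ^ j = y i) :
    (fun z => T (β * z ^ (1 + 2 ^ j))) ∈ propP x y := by
  refine ⟨fun z u v w => ?_, fun i a => ?_⟩
  · rw [dd_quad, dd_quad]; exact zmod2_two _
  · rw [dd_quad']
    have h2 : ∀ w : K, w + w = 0 := fun w => by linear_combination w * (two_eq (K := K))
    rcases hj i with h | h
    · rw [h, h2]; simp
    · rw [h, h2]; simp

end prop


/-! ### The lower bound -/

section lower

variable {K : Type} [Field K] [Finite K] [Algebra (ZMod 2) K] [CharP K 2]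

/-- evaluation at points -/
def ev {k : ℕ} (p : Fin k → K) : (K → ZMod 2) →ₗ[ZMod 2] (Fin k → ZMod 2) where
  toFun f := fun i => f (p i)
  map_add' _ _ := rfl
  map_smul' _ _ := rfl

theorem exists_trace_ne {c : K} (hc : c ≠ 0) : ∃ β : K, Algebra.trace (ZMod 2) K (β * c) ≠ 0 := by
  by_contra h
  push Not at h
  have hn := (traceForm_nondegenerate (ZMod 2) K).1
  apply hc
  apply hn c
  intro β
  rw [Algebra.traceForm_apply, mul_comm]
  exact h β

theorem not_mem {m : ℕ} (x y : Fin m → K) (i : Fin m) (j : ℕ) (hx : x i ^ 2 ^ j ≠ x i)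
    (hy : y i ^ 2 ^ j ≠ y i) :
    ∃ β : K, (fun z => Algebra.trace (ZMod 2) K (β * z ^ (1 + 2 ^ j))) ∉ propP x y := by
  have h2 : (2 : K) = 0 := two_eq
  have h1 : (x i + x i ^ 2 ^ j) * (y i + y i ^ 2 ^ j) ≠ 0 := by
    apply mul_ne_zero
    · intro h; apply hx; linear_combination h - x i * h2
    · intro h; apply hy; linear_combination h - y i * h2
  obtain ⟨β, hβ⟩ := exists_trace_ne h1
  refine ⟨β, fun h => hβ ?_⟩
  have := h.2 i 1
  rw [dd_quad'] at this
  simpa using this

/-- A single orbit characterization on `k` points has `m ≤ k`. -/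
theorem lower {m : ℕ} (x y : Fin m → K) (G H : Fin m → ℕ) (hGH : ∀ a b, G a ≤ H b)
    (hJ : ∀ a b, a ≠ b → ∀ i, x i ^ 2 ^ (H b - G a) = x i ∨ y i ^ 2 ^ (H b - G a) = y i)
    (hx : ∀ a, x a ^ 2 ^ (H a - G a) ≠ x a) (hy : ∀ a, y a ^ 2 ^ (H a - G a) ≠ y a)
    {k : ℕ} (hk : HasSingleOrbitChar (propP x y) k) : m ≤ k := by
  classical
  obtain ⟨C, hC⟩ := hk
  -- the rows
  have hrow : ∀ a : Fin m, ∃ l : Fin k → ZMod 2,
      (∀ f ∈ propP x y, ∑ i, l i * f (C.pts i) = 0) ∧
      ∑ i, algebraMap (ZMod 2) K (l i) * C.pts i ^ (1 + 2 ^ (H a - G a)) ≠ 0 := by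
    intro a
    obtain ⟨β, hβ⟩ := not_mem x y a (H a - G a) (hx a) (hy a)
    set j := H a - G a with hj
    rw [hC] at hβ
    push Not at hβ
    obtain ⟨c, b, hc, hsat⟩ := hβ
    have hv : (fun i => Algebra.trace (ZMod 2) K (β * (c * C.pts i + b) ^ (1 + 2 ^ j))) ∉
        (propP x y).map (ev C.pts) := by
      rintro ⟨f, hf, hfv⟩
      apply hsat
      have h1 := (hC f).1 hf 1 0 one_ne_zero
      have h2 : (fun i => Algebra.trace (ZMod 2) K (β * (c * C.pts i + b) ^ (1 + 2 ^ j))) =
          fun i => f (1 * C.pts i + 0) := by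
        rw [← hfv]
        funext i
        simp [ev]
      show (fun i => Algebra.trace (ZMod 2) K (β * (c * C.pts i + b) ^ (1 + 2 ^ j))) ∈ C.allowed
      rw [h2]
      exact h1
    obtain ⟨φ, hφv, hφ⟩ := Submodule.exists_le_ker_of_notMem hv
    let l : Fin k → ZMod 2 := fun i => φ (fun j => if i = j then 1 else 0)
    have hl : ∀ w : Fin k → ZMod 2, φ w = ∑ i, l i * w i := by
      intro w
      rw [LinearMap.pi_apply_eq_sum_univ φ w]
      apply Finset.sum_congr rfl
      intro i _
      rw [smul_eq_mul, mul_comm]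
    have hkill : ∀ f ∈ propP x y, ∑ i, l i * f (C.pts i) = 0 := by
      intro f hf
      have : ev C.pts f ∈ LinearMap.ker φ := hφ ⟨f, hf, rfl⟩
      rw [LinearMap.mem_ker, hl] at this
      exact this
    refine ⟨l, hkill, fun h0 => hφv ?_⟩
    rw [hl]
    -- expand
    have e1 : ∀ z : K, Algebra.trace (ZMod 2) K (β * (c * z + b) ^ (1 + 2 ^ j)) =
        Algebra.trace (ZMod 2) K (β * (c * c ^ 2 ^ j) * z ^ (1 + 2 ^ j)) +
        (Algebra.trace (ZMod 2) K (β * (c * b ^ 2 ^ j * z + b * c ^ 2 ^ j * z ^ 2 ^ j)) +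
        Algebra.trace (ZMod 2) K (β * b ^ (1 + 2 ^ j))) := by
      intro z
      rw [← map_add, ← map_add]
      congr 1
      simp only [pow_add, pow_one, add_pow_two_pow, mul_pow]
      ring
    simp only [e1, mul_add, Finset.sum_add_distrib]
    have e2 := hkill (fun z => Algebra.trace (ZMod 2) K
      (β * (c * b ^ 2 ^ j * z + b * c ^ 2 ^ j * z ^ 2 ^ j))) (by
        apply additive_mem
        intro u v
        rw [← map_add]
        congr 1
        rw [add_pow_two_pow]
        ring)
    have e3 := hkill (fun _ => Algebra.trace (ZMod 2) K (β * b ^ (1 + 2 ^ j)))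
      (const_mem _ _ _)
    simp only [mul_add] at e2
    rw [e3, e2, add_zero, add_zero]
    have e4 : ∑ i, l i * Algebra.trace (ZMod 2) K (β * (c * c ^ 2 ^ j) * C.pts i ^ (1 + 2 ^ j)) =
        Algebra.trace (ZMod 2) K (β * (c * c ^ 2 ^ j) *
          ∑ i, algebraMap (ZMod 2) K (l i) * C.pts i ^ (1 + 2 ^ j)) := by
      rw [Finset.mul_sum, map_sum]
      apply Finset.sum_congr rfl
      intro i _
      have : β * (c * c ^ 2 ^ j) * (algebraMap (ZMod 2) K (l i) * C.pts i ^ (1 + 2 ^ j)) =
          l i • (β * (c * c ^ 2 ^ j) * C.pts i ^ (1 + 2 ^ j)) := by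
        rw [Algebra.smul_def]; ring
      rw [this, map_smul, smul_eq_mul]
    rw [e4, h0, mul_zero, map_zero]
  choose l hl1 hl2 using hrow
  have hLpow : ∀ (z : ZMod 2) (n : ℕ), (algebraMap (ZMod 2) K z) ^ 2 ^ n =
      algebraMap (ZMod 2) K z := by
    intro z n
    have h2 : ∀ z : ZMod 2, z ^ 2 = z := by decide
    induction n with
    | zero => simp
    | succ n ih => rw [pow_succ, pow_mul, ih, ← map_pow, h2]
  -- the vanishing sums
  have hzero : ∀ a b : Fin m, a ≠ b →
      ∑ i, algebraMap (ZMod 2) K (l a i) * C.pts i ^ (1 + 2 ^ (H b - G a)) = 0 := by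
    intro a b hab
    by_contra hne
    obtain ⟨β, hβ⟩ := exists_trace_ne hne
    apply hβ
    have h1 := hl1 a _ (quad_mem x y (Algebra.trace (ZMod 2) K) β (H b - G a) (hJ a b hab))
    rw [← h1, Finset.mul_sum, map_sum]
    apply Finset.sum_congr rfl
    intro i _
    have : β * (algebraMap (ZMod 2) K (l a i) * C.pts i ^ (1 + 2 ^ (H b - G a))) =
        l a i • (β * C.pts i ^ (1 + 2 ^ (H b - G a))) := by
      rw [Algebra.smul_def]; ring
    rw [this, map_smul, smul_eq_mul]
  -- the matrix
  let w : Fin m → (Fin k → K) := fun b i => C.pts i ^ 2 ^ H b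
  have hmat : ∀ a b : Fin m,
      ∑ i, algebraMap (ZMod 2) K (l a i) * C.pts i ^ 2 ^ G a * w b i =
      (∑ i, algebraMap (ZMod 2) K (l a i) * C.pts i ^ (1 + 2 ^ (H b - G a))) ^ 2 ^ G a := by
    intro a b
    rw [sum_pow_char_pow]
    apply Finset.sum_congr rfl
    intro i _
    rw [mul_pow, hLpow, mul_assoc]
    congr 1
    simp only [w]
    rw [← pow_mul, add_mul, one_mul, ← pow_add 2, Nat.sub_add_cancel (hGH a b), pow_add]
  have hli : LinearIndependent K w := by
    rw [Fintype.linearIndependent_iff]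
    intro g hg a
    have h1 : ∑ i, algebraMap (ZMod 2) K (l a i) * C.pts i ^ 2 ^ G a *
        (∑ b, g b • w b) i = 0 := by
      rw [hg]; simp
    have h2 : ∑ i, algebraMap (ZMod 2) K (l a i) * C.pts i ^ 2 ^ G a *
        (∑ b, g b • w b) i =
        ∑ b, g b * ∑ i, algebraMap (ZMod 2) K (l a i) * C.pts i ^ 2 ^ G a * w b i := by
      simp only [Finset.sum_apply, Pi.smul_apply, smul_eq_mul, Finset.mul_sum]
      rw [Finset.sum_comm]
      apply Finset.sum_congr rfl
      intro b _
      apply Finset.sum_congr rfl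
      intro i _
      ring
    rw [h2, Finset.sum_eq_single a] at h1
    · rw [hmat] at h1
      rcases mul_eq_zero.1 h1 with h | h
      · exact h
      · exact absurd (pow_eq_zero_iff (by positivity) |>.1 h) (hl2 a)
    · intro b _ hb
      rw [hmat, hzero a b (Ne.symm hb), zero_pow (by positivity), mul_zero]
    · intro h; exact absurd (Finset.mem_univ a) h
  have := hli.fintype_card_le_finrank
  simpa using this

/-- A single orbit characterization exists as soon as the property is not everything. -/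
theorem exists_single (P : Submodule (ZMod 2) (K → ZMod 2)) (hP : AffineInvariant P)
    (hne : P ≠ ⊤) : ∃ k, HasSingleOrbitChar P k := by
  classical
  let e := (Finite.equivFin K).symm
  have hprop : {v : Fin (Nat.card K) → ZMod 2 | ∃ f ∈ P, ∀ i, v i = f (e i)} ≠ Set.univ := by
    intro h
    apply hne
    rw [eq_top_iff]
    intro f _
    have : (fun i => f (e i)) ∈
        {v : Fin (Nat.card K) → ZMod 2 | ∃ f ∈ P, ∀ i, v i = f (e i)} := by rw [h]; trivial
    obtain ⟨g, hg, hgf⟩ := this
    have : f = g := by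
      funext z
      have := hgf (e.symm z)
      simpa using this
    rw [this]; exact hg
  refine ⟨Nat.card K, ⟨⟨e, _, hprop⟩, fun f => ⟨fun hf a b ha => ?_, fun h => ?_⟩⟩⟩
  · exact ⟨_, hP f hf a b ha, fun i => rfl⟩
  · obtain ⟨g, hg, hgf⟩ := h 1 0 one_ne_zero
    have : f = g := by
      funext z
      have := hgf (e.symm z)
      simpa [LocalConstraint.comp] using this
    rw [this]; exact hg

end lower

/-! ### Elements of prime degree -/

section degree

variable {K : Type} [Field K] [Finite K] [CharP K 2]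

theorem exists_degree {t s : ℕ} (ht : t ≠ 0) (hcard : Nat.card K = 2 ^ t) (hs : s.Prime)
    (hst : s ∣ t) : ∃ x : K, ∀ j : ℕ, x ^ 2 ^ j = x ↔ s ∣ j := by
  classical
  haveI : Fintype K := Fintype.ofFinite K
  obtain ⟨g, hg⟩ := IsCyclic.exists_generator (α := Kˣ)
  have hord : orderOf g = 2 ^ t - 1 := by
    rw [orderOf_eq_card_of_forall_mem_zpowers hg, Nat.card_units, hcard]
  have hdvd : (2 ^ s - 1) ∣ (2 ^ t - 1) := Nat.pow_sub_one_dvd_pow_sub_one 2 hst
  obtain ⟨q, hq⟩ := hdvd
  have hs2 : 4 ≤ 2 ^ s := by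
    have : 2 ^ 2 ≤ 2 ^ s := Nat.pow_le_pow_right (by norm_num) hs.two_le
    simpa using this
  have ht2 : 2 ^ s ≤ 2 ^ t := Nat.pow_le_pow_right (by norm_num) (Nat.le_of_dvd (by omega) hst)
  have hq0 : q ≠ 0 := by rintro rfl; omega
  have hox : orderOf (g ^ q) = 2 ^ s - 1 := by
    rw [orderOf_pow_of_dvd hq0 ⟨2 ^ s - 1, by rw [hord, hq]; ring⟩, hord, hq]
    exact Nat.mul_div_cancel _ (Nat.pos_of_ne_zero hq0)
  set x : K := ((g ^ q : Kˣ) : K) with hx
  have hx0 : x ≠ 0 := Units.ne_zero _
  have key : ∀ n : ℕ, x ^ (n + 1) = x ↔ (2 ^ s - 1) ∣ n := by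
    intro n
    rw [← hox, orderOf_dvd_iff_pow_eq_one, pow_succ]
    constructor
    · intro h
      have : x ^ n = 1 := mul_right_cancel₀ hx0 (by rw [h, one_mul])
      ext
      rw [Units.val_pow_eq_pow_val, ← hx, this]; rfl
    · intro h
      have : x ^ n = 1 := by rw [hx, ← Units.val_pow_eq_pow_val, h]; rfl
      rw [this, one_mul]
  have hfix : ∀ j : ℕ, x ^ 2 ^ j = x ↔ (2 ^ s - 1) ∣ 2 ^ j - 1 := by
    intro j
    have := key (2 ^ j - 1)
    rwa [Nat.sub_add_cancel (Nat.one_le_two_pow)] at this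
  refine ⟨x, fun j => ?_⟩
  rw [hfix]
  constructor
  · intro h
    have h1 : Nat.gcd (2 ^ s - 1) (2 ^ j - 1) = 2 ^ Nat.gcd s j - 1 := Nat.pow_sub_one_gcd_pow_sub_one 2 s j
    rw [Nat.gcd_eq_left h] at h1
    by_contra hsj
    have h2 : Nat.gcd s j = 1 := (Nat.Prime.coprime_iff_not_dvd hs).2 hsj
    rw [h2] at h1
    omega
  · intro h
    exact Nat.pow_sub_one_dvd_pow_sub_one 2 h

end degree


/-! ### The main theorem -/

theorem exists_primes (m : ℕ) : ∃ r : Fin m ⊕ Fin m → ℕ, Function.Injective r ∧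
    ∀ c, (r c).Prime := by
  refine ⟨Sum.elim (fun i => Nat.nth Nat.Prime (2 * i)) (fun i => Nat.nth Nat.Prime (2 * i + 1)),
    ?_, ?_⟩
  · have hinj := Nat.nth_injective Nat.infinite_setOf_prime
    rintro (a | a) (b | b) h
    · have := hinj h
      congr 1; ext; omega
    · have := hinj h
      omega
    · have := hinj h
      omega
    · have := hinj h
      congr 1; ext; omega
  · rintro (a | a) <;> exact Nat.prime_nth_prime _

/-- For every `M` there are `t` and an affine-invariant property of functions `F_{2^t} → F_2` that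
has an `8`-local characterization and whose least single-orbit locality is at least `M`. -/
theorem result : ∀ M : ℕ, ∃ t : ℕ, t ≠ 0 ∧
    ∃ P : Submodule (ZMod 2) (GaloisField 2 t → ZMod 2), AffineInvariant P ∧ HasLocalChar P 8 ∧
      ∃ k' : ℕ, IsLeast {k | HasSingleOrbitChar P k} k' ∧ M ≤ k' := by
  classical
  intro M
  obtain ⟨r, hinj, hprime⟩ := exists_primes (M + 1)
  set t : ℕ := ∏ c, r c with htdef
  have ht0 : t ≠ 0 := by
    rw [htdef, Finset.prod_ne_zero_iff]
    intro c _; exact (hprime c).ne_zero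
  let q : Fin (M + 1) ⊕ Fin (M + 1) → ℕ := fun c => ∏ c' ∈ univ.erase c, r c'
  have htq : ∀ c, r c * q c = t := fun c => Finset.mul_prod_erase univ r (Finset.mem_univ c)
  have hdt : ∀ c, r c ∣ t := fun c => ⟨q c, (htq c).symm⟩
  have hdq : ∀ c c', c' ≠ c → r c' ∣ q c := fun c c' h =>
    Finset.dvd_prod_of_mem r (Finset.mem_erase.2 ⟨h, Finset.mem_univ _⟩)
  have hndq : ∀ c, ¬ r c ∣ q c := by
    intro c h
    rw [Prime.dvd_finset_prod_iff (hprime c).prime] at h
    obtain ⟨c', hc', hd⟩ := h
    have := (Nat.prime_dvd_prime_iff_eq (hprime c) (hprime c')).1 hd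
    exact (Finset.mem_erase.1 hc').1 (hinj this).symm
  have hqt : ∀ c, q c ≤ t := by
    intro c
    rw [← htq c]
    exact Nat.le_mul_of_pos_left _ (hprime c).pos
  have hcard : Nat.card (GaloisField 2 t) = 2 ^ t := GaloisField.card 2 t ht0
  have hdeg : ∀ c, ∃ x : GaloisField 2 t, ∀ j : ℕ, x ^ 2 ^ j = x ↔ r c ∣ j := fun c =>
    exists_degree ht0 hcard (hprime c) (hdt c)
  choose z hz using hdeg
  let x : Fin (M + 1) → GaloisField 2 t := fun i => z (Sum.inl i)
  let y : Fin (M + 1) → GaloisField 2 t := fun i => z (Sum.inr i)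
  let G : Fin (M + 1) → ℕ := fun a => q (Sum.inl a)
  let H : Fin (M + 1) → ℕ := fun b => t + q (Sum.inr b)
  have hGH : ∀ a b, G a ≤ H b := fun a b => (hqt _).trans (Nat.le_add_right _ _)
  have hJ : ∀ a b, a ≠ b → ∀ i, x i ^ 2 ^ (H b - G a) = x i ∨ y i ^ 2 ^ (H b - G a) = y i := by
    intro a b hab i
    by_cases hia : i = a
    · right
      subst hia
      rw [hz]
      apply Nat.dvd_sub
      · exact dvd_add (hdt _) (hdq _ _ (fun h => hab (Sum.inr_injective h)))
      · exact hdq _ _ (by simp)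
    · left
      rw [hz]
      apply Nat.dvd_sub
      · exact dvd_add (hdt _) (hdq _ _ (by simp))
      · exact hdq _ _ (fun h => hia (Sum.inl_injective h))
  have hx : ∀ a, x a ^ 2 ^ (H a - G a) ≠ x a := by
    intro a h
    rw [hz] at h
    apply hndq (Sum.inl a)
    have h1 : r (Sum.inl a) ∣ H a := dvd_add (hdt _) (hdq _ _ (by simp))
    exact (Nat.dvd_sub_iff_right (hGH a a) h1).1 h
  have hy : ∀ a, y a ^ 2 ^ (H a - G a) ≠ y a := by
    intro a h
    rw [hz] at h
    apply hndq (Sum.inr a)
    have h1 : r (Sum.inr a) ∣ G a := hdq _ _ (by simp)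
    have h2 : r (Sum.inr a) ∣ H a := by
      have := dvd_add h h1
      rwa [Nat.sub_add_cancel (hGH a a)] at this
    exact (Nat.dvd_add_right (hdt (Sum.inr a))).1 h2
  have hlow : ∀ k, HasSingleOrbitChar (propP x y) k → M + 1 ≤ k := fun k hk =>
    lower x y G H hGH hJ hx hy hk
  have hne : propP x y ≠ ⊤ := by
    intro h
    obtain ⟨β, hβ⟩ := not_mem x y 0 (H 0 - G 0) (hx 0) (hy 0)
    rw [h] at hβ
    exact hβ trivial
  refine ⟨t, ht0, propP x y, propP_affine x y, propP_local x y, ?_⟩
  have hex := exists_single (propP x y) (propP_affine x y) hne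
  refine ⟨Nat.find hex, ⟨Nat.find_spec hex, fun k hk => Nat.find_min' hex hk⟩, ?_⟩
  have := hlow _ (Nat.find_spec hex)
  omega

end Pool.Agent.Results.MP_cb1103_lc.SingleOrbitUnbounded
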